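import Pool.Agent.Work.MP_dcf6a6_tv_helper87.PMAPa

/-!
# Block PMAP: morphisms of projective spectra from homomorphisms multiplying degrees (helper87)
-/

open HomogeneousIdeal HomogeneousLocalization TopologicalSpace CategoryTheory
open AlgebraicGeometry

set_option linter.unusedSectionVars false

namespace Pool.TVar.helper87

noncomputable section

variable {A B : Type} [CommRing A] [Algebra ℂ A] [CommRing B] [Algebra ℂ B]
  {𝒜 : ℕ → Submodule ℂ A} [GradedAlgebra 𝒜] {ℬ : ℕ → Submodule ℂ B} [GradedAlgebra ℬ]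
  {φ : A →+* B} {d : ℕ}

variable (h : DH 𝒜 ℬ φ d) (hb : BPF 𝒜 ℬ φ)

set_option backward.isDefEq.respectTransparency.types false in
theorem DH.isLocalHom_loc (p : ProjectiveSpectrum ℬ) : IsLocalHom (h.loc hb p) where
  map_nonunit x hx := by
    rw [← isUnit_iff_isUnit_val] at hx ⊢
    have e : (h.loc hb p x).val = Localization.localRingHom _ _ φ rfl x.val :=
      h.val_map (h.le_comap hb p) x
    rw [e] at hx
    exact (Localization.isLocalHom_localRingHom _ _ φ rfl).map_nonunit _ hx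

set_option backward.isDefEq.respectTransparency false in
/-- The morphism of schemes. -/
def DH.mor : Proj ℬ ⟶ Proj 𝒜 where
  __ := (h.sheafedSpaceMap hb).hom
  prop p := .mk fun x hx ↦ by
    rw [← h.localRingHom_comp_stalkIso hb] at hx
    simp only [CommRingCat.hom_comp, CommRingCat.hom_ofHom, RingHom.coe_comp,
      Function.comp_apply] at hx
    have : IsLocalHom (Proj.stalkIso ℬ p).inv.hom := isLocalHom_of_isIso _
    replace hx := (isUnit_map_iff _ _).mp hx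
    have : IsLocalHom (h.loc hb p) := h.isLocalHom_loc hb p
    replace hx := IsLocalHom.map_nonunit _ hx
    have : IsLocalHom (Proj.stalkIso 𝒜 (h.comap hb p)).hom.hom := isLocalHom_of_isIso _
    exact (isUnit_map_iff _ _).mp hx

theorem DH.mor_apply (q : Proj ℬ) (a : A) :
    a ∈ (h.mor hb q).asHomogeneousIdeal ↔ φ a ∈ q.asHomogeneousIdeal := Iff.rfl

@[simp] theorem DH.mor_preimage_basicOpen (s : A) :
    h.mor hb ⁻¹ᵁ Proj.basicOpen 𝒜 s = Proj.basicOpen ℬ (φ s) := rfl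

set_option backward.isDefEq.respectTransparency.types false in
theorem DH.ι_comp_mor (s : A) : (Proj.basicOpen ℬ (φ s)).ι ≫ h.mor hb =
    (h.mor hb).resLE _ _ le_rfl ≫ (Proj.basicOpen 𝒜 s).ι := by simp

/-- The map on coordinate rings. -/
def DH.away (h : DH 𝒜 ℬ φ d) (s : A) : Away 𝒜 s →+* Away ℬ (φ s) :=
  h.map (by rintro _ ⟨n, rfl⟩; exact ⟨n, by simp⟩)

set_option backward.isDefEq.respectTransparency.types false in
theorem DH.awayToSection_comp_appLE {i : ℕ} {s : A} (hs : s ∈ 𝒜 i) :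
    Proj.awayToSection 𝒜 s ≫
      Scheme.Hom.appLE (h.mor hb) (Proj.basicOpen 𝒜 s) (Proj.basicOpen ℬ (φ s)) (by rfl) =
    CommRingCat.ofHom (h.away s) ≫ Proj.awayToSection ℬ (φ s) := by
  ext x
  obtain ⟨n, x, hx, rfl⟩ := x.mk_surjective _ hs
  simp only [CommRingCat.hom_comp, RingHom.coe_comp, Function.comp_apply, CommRingCat.hom_ofHom]
  refine Subtype.ext <| funext fun p ↦ ?_
  rfl

set_option backward.isDefEq.respectTransparency false in
theorem DH.awayι_comp_mor {i : ℕ} (hi : 0 < i) (s : A) (hs : s ∈ 𝒜 i) :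
    Proj.awayι ℬ (φ s) (h.deg i s hs) (Nat.mul_pos h.pos hi) ≫ h.mor hb =
    Spec.map (CommRingCat.ofHom (h.away s)) ≫ Proj.awayι 𝒜 s hs hi := by
  rw [Proj.awayι, Proj.awayι, Category.assoc, h.ι_comp_mor, ← Category.assoc, ← Category.assoc]
  congr 1
  rw [Iso.inv_comp_eq, ← Category.assoc, Iso.eq_comp_inv]
  refine ext_to_Spec <| (cancel_mono (Proj.basicOpen ℬ (φ s)).topIso.hom).mp ?_
  simp [Proj.basicOpenIsoSpec_hom, Proj.basicOpenToSpec_app_top, h.awayToSection_comp_appLE hb hs]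

theorem DH.mor_struct (hφ : ∀ z : ℂ, φ (algebraMap ℂ A z) = algebraMap ℂ B z) :
    h.mor hb ≫ structMap 𝒜 = structMap ℬ := by
  let U : {x : ℕ × A // 0 < x.1 ∧ x.2 ∈ 𝒜 x.1} → (Proj ℬ).Opens :=
    fun x ↦ Proj.basicOpen ℬ (φ x.1.2)
  have hU : IsOpenCover U := by
    refine IsOpenCover.mk ?_
    rw [_root_.eq_top_iff]
    intro q _
    obtain ⟨n, hn, a, ha, hq⟩ := hb q
    rw [Opens.mem_iSup]
    exact ⟨⟨(n, a), hn, ha⟩, hq⟩
  refine ((Proj ℬ).openCoverOfIsOpenCover U hU).hom_ext _ _ fun x ↦ ?_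
  obtain ⟨⟨i, s⟩, hi, hs⟩ := x
  change (Proj.basicOpen ℬ (φ s)).ι ≫ h.mor hb ≫ structMap 𝒜 =
    (Proj.basicOpen ℬ (φ s)).ι ≫ structMap ℬ
  have e1 := h.awayι_comp_mor hb hi s hs
  have e2 : (Proj.basicOpen ℬ (φ s)).ι =
      (Proj.basicOpenIsoSpec ℬ (φ s) (h.deg i s hs) (Nat.mul_pos h.pos hi)).hom ≫
        Proj.awayι ℬ (φ s) (h.deg i s hs) (Nat.mul_pos h.pos hi) := by
    rw [Proj.awayι, Iso.hom_inv_id_assoc]
  rw [e2, Category.assoc, Category.assoc, reassoc_of% e1]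
  congr 1
  unfold structMap
  rw [Proj.awayι_toSpecZero_assoc, Proj.awayι_toSpecZero_assoc, ← Spec.map_comp, ← Spec.map_comp,
    ← Spec.map_comp]
  congr 1
  ext z
  change (h.away s (fromZeroRingHom 𝒜 _ (algebraMap ℂ (𝒜 0) z))).val =
    (fromZeroRingHom ℬ _ (algebraMap ℂ (ℬ 0) z)).val
  have e3 : (h.away s (fromZeroRingHom 𝒜 _ (algebraMap ℂ (𝒜 0) z))).val =
      algebraMap B (Localization.Away (φ s)) (φ (algebraMap ℂ A z)) := by
    rw [DH.away, h.val_map]
    have e4 : (fromZeroRingHom 𝒜 (Submonoid.powers s) (algebraMap ℂ (𝒜 0) z)).val =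
        algebraMap A (Localization.Away s) (algebraMap ℂ A z) := by
      rw [← Localization.mk_one_eq_algebraMap]
      rfl
    rw [e4, IsLocalization.map_eq]
  have e5 : (fromZeroRingHom ℬ (Submonoid.powers (φ s)) (algebraMap ℂ (ℬ 0) z)).val =
      algebraMap B (Localization.Away (φ s)) (algebraMap ℂ B z) := by
    rw [← Localization.mk_one_eq_algebraMap]
    rfl
  rw [e3, e5, hφ]

end

/-- PMAP -/
theorem stmt_PMAP : Stmt_PMAP := by
  intro A B _ _ _ _ 𝒜 _ ℬ _ φ d hd hφ hb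
  have h : DH 𝒜 ℬ (φ : A →+* B) d := ⟨hd, hφ⟩
  have hb' : BPF 𝒜 ℬ (φ : A →+* B) := hb
  exact ⟨h.mor hb', h.mor_struct hb' fun z ↦ φ.commutes z, fun q n a _ ↦ h.mor_apply hb' q a⟩

end Pool.TVar.helper87
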