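import Pool.Agent.Work.MP_dcf6a6_tv.Interface

/-!
# Block PMAP: morphisms of projective spectra from homomorphisms multiplying degrees (helper87)
-/

open HomogeneousIdeal HomogeneousLocalization TopologicalSpace CategoryTheory
open AlgebraicGeometry ProjectiveSpectrum Proj

set_option linter.unusedSectionVars false

namespace Pool.TVar.helper87

noncomputable section

variable {A B : Type} [CommRing A] [Algebra ℂ A] [CommRing B] [Algebra ℂ B]
  (𝒜 : ℕ → Submodule ℂ A) [GradedAlgebra 𝒜] (ℬ : ℕ → Submodule ℂ B) [GradedAlgebra ℬ]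

/-- homomorphisms multiplying degrees by `d` -/
structure DH (φ : A →+* B) (d : ℕ) : Prop where
  pos : 0 < d
  deg : ∀ n, ∀ a ∈ 𝒜 n, φ a ∈ ℬ (d * n)

variable {𝒜 ℬ} {φ : A →+* B} {d : ℕ}

theorem DH.dec (h : DH 𝒜 ℬ φ d) (a : A) (i : ℕ) :
    (DirectSum.decompose ℬ (φ a) (d * i) : B) = φ (DirectSum.decompose 𝒜 a i) := by
  induction a using DirectSum.Decomposition.inductionOn 𝒜 with
  | zero => simp
  | @homogeneous j m =>
    rw [DirectSum.decompose_of_mem ℬ (h.deg j m m.2), DirectSum.decompose_coe]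
    by_cases hij : j = i
    · subst hij
      simp [DirectSum.of_eq_same]
    · have h1 : d * j ≠ d * i := fun e => hij (Nat.eq_of_mul_eq_mul_left h.pos e)
      rw [DirectSum.of_eq_of_ne _ _ _ (Ne.symm h1), DirectSum.of_eq_of_ne _ _ _ (Ne.symm hij)]
      simp
  | add a b ha hb =>
    simp [map_add, DirectSum.decompose_add, ha, hb]

/-- the preimage of a homogeneous ideal -/
def DH.comapI (h : DH 𝒜 ℬ φ d) (q : HomogeneousIdeal ℬ) : HomogeneousIdeal 𝒜 where
  toSubmodule := q.toIdeal.comap φ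
  is_homogeneous' := by
    intro i a ha
    rw [Ideal.mem_comap] at ha ⊢
    rw [← h.dec]
    exact q.isHomogeneous (d * i) ha

/-- The map on homogeneous localizations, function. -/
def DH.mapFun (h : DH 𝒜 ℬ φ d) {P : Submonoid A} {Q : Submonoid B} (hPQ : P ≤ Q.comap φ) :
    HomogeneousLocalization 𝒜 P → HomogeneousLocalization ℬ Q :=
  Quotient.map'
    (fun x ↦ ⟨d * x.1, ⟨φ x.2, h.deg _ _ x.2.2⟩, ⟨φ x.3, h.deg _ _ x.3.2⟩, hPQ x.4⟩)
    fun x y (e : x.embedding = y.embedding) ↦ by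
      apply_fun IsLocalization.map (Localization Q) φ hPQ at e
      simp_rw [HomogeneousLocalization.NumDenSameDeg.embedding, Localization.mk_eq_mk',
        IsLocalization.map_mk', ← Localization.mk_eq_mk'] at e
      exact e

theorem DH.mapFun_mk (h : DH 𝒜 ℬ φ d) {P : Submonoid A} {Q : Submonoid B}
    (hPQ : P ≤ Q.comap φ) (x : NumDenSameDeg 𝒜 P) :
    h.mapFun hPQ (.mk x) = .mk ⟨d * x.1, ⟨φ x.2, h.deg _ _ x.2.2⟩, ⟨φ x.3, h.deg _ _ x.3.2⟩,
      hPQ x.4⟩ := rfl

theorem DH.val_mapFun (h : DH 𝒜 ℬ φ d) {P : Submonoid A} {Q : Submonoid B}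
    (hPQ : P ≤ Q.comap φ) (x : HomogeneousLocalization 𝒜 P) :
    (h.mapFun hPQ x).val = IsLocalization.map (Localization Q) φ hPQ x.val := by
  obtain ⟨c, rfl⟩ := x.mk_surjective
  rw [h.mapFun_mk, val_mk, val_mk, Localization.mk_eq_mk', Localization.mk_eq_mk',
    IsLocalization.map_mk']

/-- The map on homogeneous localizations. -/
def DH.map (h : DH 𝒜 ℬ φ d) {P : Submonoid A} {Q : Submonoid B} (hPQ : P ≤ Q.comap φ) :
    HomogeneousLocalization 𝒜 P →+* HomogeneousLocalization ℬ Q where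
  toFun := h.mapFun hPQ
  map_zero' := by
    apply val_injective
    rw [h.val_mapFun, val_zero, val_zero, map_zero]
  map_one' := by
    apply val_injective
    rw [h.val_mapFun, val_one, val_one, map_one]
  map_add' x y := by
    apply val_injective
    rw [h.val_mapFun, val_add, val_add, map_add, h.val_mapFun, h.val_mapFun]
  map_mul' x y := by
    apply val_injective
    rw [h.val_mapFun, val_mul, val_mul, map_mul, h.val_mapFun, h.val_mapFun]

theorem DH.map_mk (h : DH 𝒜 ℬ φ d) {P : Submonoid A} {Q : Submonoid B}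
    (hPQ : P ≤ Q.comap φ) (x : NumDenSameDeg 𝒜 P) :
    h.map hPQ (.mk x) = .mk ⟨d * x.1, ⟨φ x.2, h.deg _ _ x.2.2⟩, ⟨φ x.3, h.deg _ _ x.3.2⟩,
      hPQ x.4⟩ := rfl

theorem DH.val_map (h : DH 𝒜 ℬ φ d) {P : Submonoid A} {Q : Submonoid B}
    (hPQ : P ≤ Q.comap φ) (x : HomogeneousLocalization 𝒜 P) :
    (h.map hPQ x).val = IsLocalization.map (Localization Q) φ hPQ x.val := h.val_mapFun hPQ x

/-! ## Points -/

/-- no base points -/
def BPF (𝒜 : ℕ → Submodule ℂ A) (ℬ : ℕ → Submodule ℂ B) [GradedAlgebra ℬ] (φ : A →+* B) : Prop :=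
  ∀ q : ProjectiveSpectrum ℬ, ∃ n, 0 < n ∧ ∃ a ∈ 𝒜 n, φ a ∉ q.asHomogeneousIdeal

/-- The underlying function on points. -/
def DH.comapFun (h : DH 𝒜 ℬ φ d) (hb : BPF 𝒜 ℬ φ) (p : ProjectiveSpectrum ℬ) :
    ProjectiveSpectrum 𝒜 where
  asHomogeneousIdeal := h.comapI p.1
  isPrime := Ideal.IsPrime.comap (hK := p.2) φ
  not_irrelevant_le le := by
    obtain ⟨n, hn, a, ha, hq⟩ := hb p
    refine hq (le ?_)
    rw [HomogeneousIdeal.mem_irrelevant_iff]
    simp [DirectSum.decompose_of_mem_ne 𝒜 ha hn.ne']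

theorem DH.mem_comapFun (h : DH 𝒜 ℬ φ d) (hb : BPF 𝒜 ℬ φ) (p : ProjectiveSpectrum ℬ) (a : A) :
    a ∈ (h.comapFun hb p).asHomogeneousIdeal ↔ φ a ∈ p.asHomogeneousIdeal := Iff.rfl

/-- The underlying continuous function on points. -/
def DH.comap (h : DH 𝒜 ℬ φ d) (hb : BPF 𝒜 ℬ φ) :
    C(ProjectiveSpectrum ℬ, ProjectiveSpectrum 𝒜) where
  toFun := h.comapFun hb
  continuous_toFun := by
    simp_rw [continuous_iff_isClosed, isClosed_iff_zeroLocus, exists_imp, forall_eq_apply_imp_iff]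
    intro s
    refine ⟨φ '' s, ?_⟩
    ext p
    simp only [Set.mem_preimage, ProjectiveSpectrum.mem_zeroLocus, Set.image_subset_iff]
    exact Iff.rfl

section

variable (h : DH 𝒜 ℬ φ d) (hb : BPF 𝒜 ℬ φ) (U : Opens (ProjectiveSpectrum 𝒜))
  (V : Opens (ProjectiveSpectrum ℬ)) (hUV : V.1 ⊆ h.comap hb ⁻¹' U.1)

theorem DH.le_comap (p : ProjectiveSpectrum ℬ) :
    (h.comapFun hb p).asHomogeneousIdeal.toIdeal.primeCompl ≤
      Submonoid.comap φ p.asHomogeneousIdeal.toIdeal.primeCompl := fun _ ha ↦ ha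

/-- The map on local rings. -/
def DH.loc (p : ProjectiveSpectrum ℬ) :
    HomogeneousLocalization.AtPrime 𝒜 (h.comapFun hb p).asHomogeneousIdeal.toIdeal →+*
      HomogeneousLocalization.AtPrime ℬ p.asHomogeneousIdeal.toIdeal :=
  h.map (h.le_comap hb p)

/-- The underlying function on the level of structure sheaves. -/
def DH.shFun (s : ∀ x : U, AtPrime 𝒜 x.1.1.1) (y : V) : AtPrime ℬ y.1.1.1 :=
  h.loc hb y.1 <| s ⟨h.comap hb y.1, hUV y.2⟩

set_option backward.isDefEq.respectTransparency false in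
theorem DH.isLoc_shFun (s : ∀ x : U, AtPrime 𝒜 x.1.1.1)
    (hs : (StructureSheaf.isLocallyFraction 𝒜).pred s) :
    (StructureSheaf.isLocallyFraction ℬ).pred (h.shFun hb U V hUV s) := by
  rintro ⟨p, hpV⟩
  rcases hs ⟨h.comap hb p, hUV hpV⟩ with ⟨W, m, iWU, i, a, b, hb', h_frac⟩
  refine ⟨W.comap (h.comap hb) ⊓ V, ⟨m, hpV⟩, Opens.infLERight _ _, d * i,
    ⟨φ a, h.deg _ _ a.2⟩, ⟨φ b, h.deg _ _ b.2⟩, fun ⟨q, ⟨hqW, hqV⟩⟩ ↦ hb' ⟨_, hqW⟩,
    fun ⟨q, ⟨hqW, hqV⟩⟩ ↦ ?_⟩
  specialize h_frac ⟨_, hqW⟩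
  exact congrArg (h.loc hb q) h_frac

set_option backward.isDefEq.respectTransparency false in
/-- The ring homomorphism on the level of structure sheaves. -/
def DH.sh :
    (Proj.structureSheaf 𝒜).1.obj (.op U) →+* (Proj.structureSheaf ℬ).1.obj (.op V) where
  toFun s := ⟨h.shFun hb _ _ hUV s.1, h.isLoc_shFun hb _ _ hUV _ s.2⟩
  map_one' := by
    refine Subtype.ext (funext fun y ↦ ?_)
    exact map_one (h.loc hb y.1)
  map_zero' := by
    refine Subtype.ext (funext fun y ↦ ?_)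
    exact map_zero (h.loc hb y.1)
  map_add' x y := by
    refine Subtype.ext (funext fun z ↦ ?_)
    exact map_add (h.loc hb z.1) _ _
  map_mul' x y := by
    refine Subtype.ext (funext fun z ↦ ?_)
    exact map_mul (h.loc hb z.1) _ _

set_option backward.isDefEq.respectTransparency.types false in
/-- The underlying map on the level of sheafed spaces. -/
def DH.sheafedSpaceMap :
    Proj.toSheafedSpace ℬ ⟶ Proj.toSheafedSpace 𝒜 where
  hom :=
    { base := TopCat.ofHom <| h.comap hb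
      c := { app U := CommRingCat.ofHom <| h.sh hb _ _ Set.Subset.rfl } }

set_option backward.isDefEq.respectTransparency.types false in
theorem DH.germ_map_sectionInBasicOpen {p : ProjectiveSpectrum ℬ}
    (c : NumDenSameDeg 𝒜 (h.comap hb p).1.toIdeal.primeCompl) :
    (toSheafedSpace ℬ).presheaf.germ
      ((Opens.map (h.sheafedSpaceMap hb).hom.base).obj _) p (mem_basicOpen_den _ _ _)
      ((h.sheafedSpaceMap hb).hom.c.app _ (sectionInBasicOpen 𝒜 _ c)) =
    (toSheafedSpace ℬ).presheaf.germ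
      (ProjectiveSpectrum.basicOpen _ (φ c.den)) p c.4
      (sectionInBasicOpen ℬ p ⟨d * c.1, ⟨φ c.2, h.deg _ _ c.2.2⟩, ⟨φ c.3, h.deg _ _ c.3.2⟩,
        c.4⟩) :=
  rfl

set_option backward.isDefEq.respectTransparency.types false in
theorem DH.localRingHom_comp_stalkIso (p : ProjectiveSpectrum ℬ) :
    (stalkIso 𝒜 (h.comap hb p)).hom ≫
      CommRingCat.ofHom (h.loc hb p) ≫
        (stalkIso ℬ p).inv =
      (h.sheafedSpaceMap hb).hom.stalkMap p := by
  rw [← Iso.eq_inv_comp, Iso.comp_inv_eq]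
  ext : 1
  simp only [CommRingCat.hom_ofHom, stalkIso, RingEquiv.toCommRingCatIso_inv,
    RingEquiv.toCommRingCatIso_hom, CommRingCat.hom_comp]
  ext x : 2
  obtain ⟨c, rfl⟩ := x.mk_surjective
  change HomogeneousLocalization.val (h.loc hb p (.mk c)) = HomogeneousLocalization.val
    (stalkIso' ℬ p ((PresheafedSpace.Hom.stalkMap (h.sheafedSpaceMap hb).hom p).hom
      ((stalkIso' 𝒜 (h.comap hb p)).symm (.mk c))))
  erw [stalkIso'_symm_mk]
  erw [PresheafedSpace.stalkMap_germ_apply]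
  erw [h.germ_map_sectionInBasicOpen]
  erw [stalkIso'_germ]
  rfl

end

end

end Pool.TVar.helper87
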